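import Pool.Agent.MP_c69980_ag.H43.Spec9

/-!
Finite families of a finitely generated field that are stable under derivations.
-/

set_option autoImplicit false

namespace Pool.Agent.MP_c69980_ag.H43

open H60 Finset MvPolynomial

section Pol
variable {F A ι : Type} [Field F] [CommRing A] [Algebra F A] {g : ι → A} {m n : ℕ} {x y : A}

lemma Fil_mem : x ∈ Pol F g n ↔ ∃ P : MvPolynomial ι F, P.totalDegree ≤ n ∧ aeval g P = x := by
  simp only [Pol, Submodule.mem_map, mem_restrictTotalDegree]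
  rfl

lemma Fil_mono (h : x ∈ Pol F g m) (e : m ≤ n) : x ∈ Pol F g n :=
  let ⟨P, a, b⟩ := Fil_mem.1 h; Fil_mem.2 ⟨P, a.trans e, b⟩

lemma Fil_mul (h : x ∈ Pol F g m) (h' : y ∈ Pol F g n) : x * y ∈ Pol F g (m + n) :=
  let ⟨P, a, b⟩ := Fil_mem.1 h
  let ⟨Q, c, d⟩ := Fil_mem.1 h'
  Fil_mem.2 ⟨P * Q, (totalDegree_mul P Q).trans (add_le_add a c), by rw [map_mul, b, d]⟩

lemma Fil_const (c : F) : algebraMap F A c ∈ Pol F g 0 :=
  Fil_mem.2 ⟨C c, (totalDegree_C c).le, aeval_C _ _⟩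

lemma Fil_gen (i : ι) : g i ∈ Pol F g 1 := Fil_mem.2 ⟨X i, (totalDegree_X i).le, aeval_X _ _⟩

end Pol

variable {K : Type} [Field K] [Algebra ℂ K]

lemma Fil_stab {F : IntermediateField ℂ K} {ι : Type} {g : ι → K} {D : Derivation ℂ K K} {C : ℕ}
    (hF : ∀ x ∈ F, D x = 0) (hg : ∀ i, D (g i) ∈ Pol F g C) (n : ℕ) (x : K) (hx : x ∈ Pol F g n) :
    D x ∈ Pol F g (n + C) := by
  classical
  let Q : ℕ → K → Prop := fun n x => x ∈ Pol F g n ∧ D x ∈ Pol F g (n + C)
  have mul : ∀ m n x y, Q m x → Q n y → Q (m + n) (x * y) := fun m n x y a b =>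
    ⟨Fil_mul a.1 b.1, by
      rw [Derivation.leibniz]
      exact add_mem (Fil_mono (Fil_mul a.1 b.2) (by omega)) (Fil_mono (Fil_mul b.1 a.2) (by omega))⟩
  have cst : ∀ c : F, Q 0 (algebraMap F K c) := fun c =>
    ⟨Fil_const c, by rw [hF (algebraMap F K c) c.2]; exact zero_mem _⟩
  have one : Q 0 1 := by simpa using cst 1
  have pow : ∀ i k, Q k (g i ^ k) := fun i k => by
    induction k with
    | zero => simpa using one
    | succ k ih => exact pow_succ (g i) k ▸ mul _ _ _ _ ih ⟨Fil_gen i, Fil_mono (hg i) (by omega)⟩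
  have prd : ∀ (m : ι → ℕ) (s : Finset ι), Q (∑ i ∈ s, m i) (∏ i ∈ s, g i ^ m i) := fun m s => by
    induction s using Finset.induction_on with
    | empty => simpa using one
    | insert i s hi ih => rw [sum_insert hi, prod_insert hi]; exact mul _ _ _ _ (pow i _) ih
  obtain ⟨P, hP, rfl⟩ := Fil_mem.1 hx
  rw [P.as_sum, map_sum, map_sum]
  refine sum_mem fun m hm => ?_
  rw [aeval_monomial]
  refine Fil_mono (mul _ _ _ _ (cst _) (prd m m.support)).2 ?_
  have : ∑ i ∈ m.support, m i ≤ n := (le_totalDegree hm).trans hP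
  omega

lemma Fil_adj {S : Set K} {R : Subalgebra ℂ K} {D : Derivation ℂ K K} (hS : S ⊆ R)
    (h : ∀ x ∈ S, D x ∈ R) (x : K) (hx : x ∈ Algebra.adjoin ℂ S) : D x ∈ R := by
  induction hx using Algebra.adjoin_induction with
  | mem x hx => exact h x hx
  | algebraMap c => rw [D.map_algebraMap]; exact zero_mem _
  | add a b _ _ ha hb => rw [map_add]; exact add_mem ha hb
  | mul a b ha' hb' ha hb =>
    rw [Derivation.leibniz]
    exact add_mem (mul_mem (Algebra.adjoin_le hS ha') hb) (mul_mem (Algebra.adjoin_le hS hb') ha)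

lemma Fil_ex (F : IntermediateField ℂ K) {ι : Type} (g : ι → K) (x : K)
    (hx : x ∈ Algebra.adjoin ℂ (Set.range g)) : ∃ n, x ∈ Pol F g n := by
  induction hx using Algebra.adjoin_induction with
  | mem x hx => obtain ⟨i, rfl⟩ := hx; exact ⟨1, Fil_gen i⟩
  | algebraMap c => exact ⟨0, Fil_const (F := F) ⟨_, F.algebraMap_mem c⟩⟩
  | add a b _ _ ha hb =>
    obtain ⟨m, ha⟩ := ha
    obtain ⟨n, hb⟩ := hb
    exact ⟨m + n, add_mem (Fil_mono ha (by omega)) (Fil_mono hb (by omega))⟩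
  | mul a b _ _ ha hb =>
    obtain ⟨m, ha⟩ := ha
    obtain ⟨n, hb⟩ := hb
    exact ⟨m + n, Fil_mul ha hb⟩

theorem sFil : SFil := by
  intro K _ _ F s d T hF ⟨T', hT⟩
  classical
  have key : ∀ x : K, ∃ a ∈ Algebra.adjoin ℂ ((T ∪ T' : Finset K) : Set K),
      ∃ b ∈ Algebra.adjoin ℂ ((T ∪ T' : Finset K) : Set K), x = a / b := fun x => by
    apply IntermediateField.mem_adjoin_iff_div.1
    exact IntermediateField.adjoin.mono ℂ _ _ (by simp) (hT ▸ IntermediateField.mem_top)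
  choose a ha b hb e using key
  let S : Finset K := T ∪ T' ∪ (univ ×ˢ (T ∪ T')).image fun p : Fin s × K => (b (d p.1 p.2))⁻¹
  let g : Fin S.card → K := fun i => S.equivFin.symm i
  have hg : Set.range g = S := by
    ext x
    exact ⟨fun ⟨i, h⟩ => h ▸ (S.equivFin.symm i).2, fun h => ⟨S.equivFin ⟨x, h⟩, by simp [g]⟩⟩
  have s0 : ((T ∪ T' : Finset K) : Set K) ⊆ Algebra.adjoin ℂ (S : Set K) := fun x hx =>
    Algebra.subset_adjoin (mem_union_left _ hx)
  have s1 : ∀ l, ∀ x ∈ T ∪ T', (b (d l x))⁻¹ ∈ Algebra.adjoin ℂ (S : Set K) := fun l x hx =>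
    Algebra.subset_adjoin (mem_union_right _ (mem_image.2 ⟨(l, x), by simpa using hx, rfl⟩))
  have s2 : ∀ l, ∀ x ∈ T ∪ T', d l x ∈ Algebra.adjoin ℂ (S : Set K) := fun l x hx => by
    rw [e (d l x), div_eq_mul_inv]
    exact mul_mem (Algebra.adjoin_le s0 (ha _)) (s1 l x hx)
  have s3 : ∀ p : Fin s × Fin S.card, ∃ n, d p.1 (g p.2) ∈ Pol F g n := fun ⟨l, i⟩ => by
    refine Fil_ex F g _ (hg ▸ ?_)
    rcases mem_union.1 (S.equivFin.symm i).2 with h | h
    · exact s2 l _ h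
    · obtain ⟨⟨l', x⟩, h1, h2⟩ := mem_image.1 h
      change d l (S.equivFin.symm i) ∈ _
      rw [← h2, Derivation.leibniz_inv]
      exact mul_mem (neg_mem (pow_mem (s1 l' x (mem_product.1 h1).2) 2))
        (Fil_adj s0 (s2 l) _ (hb _))
  choose n hn using s3
  refine ⟨S.card, g, univ.sup n, fun l => Fil_stab (hF l) fun i =>
    Fil_mono (hn (l, i)) (le_sup (mem_univ _)), hg ▸ fun x hx => ?_⟩
  exact mem_union_left _ (mem_union_left _ hx)

end Pool.Agent.MP_c69980_ag.H43
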