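import Pool.Agent.MP_c69980_ag.H43.Spec6

/-!
Comparison between the points of a variety and their images under a generically finite map.
-/

set_option autoImplicit false

namespace Pool.Agent.MP_c69980_ag.H43

open MvPolynomial H60 Finset

lemma RelK_ren {σ τ N : Type} [AddCommMonoid N] {w : τ → N} {f : σ → τ} {v : N}
    (hw : ∀ i, w (f i) = v) {φ : MvPolynomial σ ℂ} {d : ℕ} (h : φ.IsHomogeneous d) :
    (rename f φ).IsWeightedHomogeneous w (d • v) := by
  rw [← φ.support_sum_monomial_coeff, map_sum]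
  simp_rw [rename_monomial]
  refine IsWeightedHomogeneous.sum _ _ _ fun m hm => isWeightedHomogeneous_monomial _ _ _ ?_
  rw [h.degree_eq_sum_deg_support hm, Finsupp.weight_apply,
    Finsupp.sum_mapDomain_index (by simp) (fun _ _ _ => add_smul _ _ _), Finsupp.sum, sum_smul]
  simp [hw]

section Rel
variable {ι κ K A : Type} [CommRing K] [Algebra ℂ K] [CommRing A] [Algebra ℂ A] {z : ι → K}
  {u : κ → K} {z' : ι → A} {u' : κ → A}

lemma RelK_rel (h : Rel z u z' u') {γ : Type} (s : Finset γ) (F : γ → MvPolynomial ι ℂ)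
    (G : γ → MvPolynomial κ ℂ) {d e : ℕ} (hF : ∀ i ∈ s, (F i).IsHomogeneous d)
    (hG : ∀ i ∈ s, (G i).IsHomogeneous e) (h0 : ∑ i ∈ s, aeval z (F i) * aeval u (G i) = 0) :
    ∑ i ∈ s, aeval z' (F i) * aeval u' (G i) = 0 := by
  have := h (∑ i ∈ s, rename Sum.inl (F i) * rename Sum.inr (G i)) d e
    (IsWeightedHomogeneous.sum _ _ _ fun i hi => by
      simpa using (RelK_ren (w := Sum.elim (fun _ => ((1, 0) : ℕ × ℕ)) fun _ => (0, 1))
        (f := Sum.inl) (fun _ => rfl) (hF i hi)).mul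
        (RelK_ren (f := Sum.inr) (fun _ => rfl) (hG i hi)))
    (by simpa [map_sum, aeval_rename] using h0)
  simpa [map_sum, aeval_rename] using this

lemma RelK_two (h : Rel z u z' u') {F G : MvPolynomial ι ℂ} {d : ℕ} (hF : F.IsHomogeneous d)
    (hG : G.IsHomogeneous d) (b c : κ) (h0 : aeval z F * u b = aeval z G * u c) :
    aeval z' F * u' b = aeval z' G * u' c := by
  have := RelK_rel h univ ![F, -G] ![X b, X c] (d := d) (e := 1)
    (fun i _ => by fin_cases i; exacts [hF, hG.neg])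
    (fun i _ => by fin_cases i <;> exact isHomogeneous_X _ _) (by simp [h0])
  simpa [add_neg_eq_zero] using this

end Rel

section Alg
variable {K : Type} [Field K] [Algebra ℂ K] {n M : ℕ}

/-- Common denominators. -/
lemma RelK_den {γ : Type} (z : Fin n → K) (s : Finset γ) (g : γ → K)
    (h : ∀ i, ∃ (F G : PR n) (d : ℕ), F.IsHomogeneous d ∧ G.IsHomogeneous d ∧ aeval z G ≠ 0 ∧
      g i = aeval z F / aeval z G) : ∃ (A : γ → PR n) (e : ℕ) (l : K), l ≠ 0 ∧
      ∀ i ∈ s, (A i).IsHomogeneous e ∧ aeval z (A i) = l * g i := by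
  classical
  choose F G d hF hG h0 hg using h
  refine ⟨fun i => F i * ∏ j ∈ s.erase i, G j, ∑ j ∈ s, d j, ∏ j ∈ s, aeval z (G j),
    prod_ne_zero_iff.2 fun j _ => h0 j, fun i hi => ⟨?_, ?_⟩⟩
  · rw [← add_sum_erase s d hi]
    exact (hF i).mul (IsHomogeneous.prod _ _ _ fun j _ => hG j)
  · rw [← mul_prod_erase s _ hi, hg, map_mul, map_prod]
    have := h0 i
    field_simp

lemma RelK_quot (u : Fin M → K) (g : K) (hg : g ∈ K0 u) : ∃ (F G : PR M) (d : ℕ),
    F.IsHomogeneous d ∧ G.IsHomogeneous d ∧ aeval u G ≠ 0 ∧ g = aeval u F / aeval u G := by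
  have h0 : ∃ (F G : PR M) (d : ℕ), F.IsHomogeneous d ∧
      G.IsHomogeneous d ∧ aeval u G ≠ 0 ∧ 0 = aeval u F / aeval u G :=
    ⟨0, 1, 0, isHomogeneous_zero _ _ _, isHomogeneous_one _ _, by simp, by simp⟩
  induction hg using IntermediateField.adjoin_induction with
  | mem x hx =>
    obtain ⟨i, j, rfl⟩ := hx
    by_cases h : u j = 0
    · rwa [h, div_zero]
    · exact ⟨X i, X j, 1, isHomogeneous_X _ _, isHomogeneous_X _ _, by simpa, by simp⟩
  | algebraMap c => exact ⟨C c, 1, 0, isHomogeneous_C _ _, isHomogeneous_one _ _, by simp, by simp⟩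
  | add a b _ _ ha hb =>
    obtain ⟨F, G, d, hF, hG, hx, rfl⟩ := ha
    obtain ⟨F', G', d', hF', hG', hx', rfl⟩ := hb
    exact ⟨_, _, _, (hF.mul hG').add (hG.mul hF'), hG.mul hG', by simp [hx, hx'], by
      rw [div_add_div _ _ hx hx']; simp⟩
  | inv a _ ha =>
    obtain ⟨F, G, d, hF, hG, hx, rfl⟩ := ha
    by_cases h : aeval u F = 0
    · rwa [h, zero_div, inv_zero]
    · exact ⟨G, F, d, hG, hF, h, inv_div _ _⟩
  | mul a b _ _ ha hb =>
    obtain ⟨F, G, d, hF, hG, hx, rfl⟩ := ha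
    obtain ⟨F', G', d', hF', hG', hx', rfl⟩ := hb
    exact ⟨_, _, _, hF.mul hF', hG.mul hG', by simp [hx, hx'], by rw [div_mul_div_comm]; simp⟩

/-- Equations with forms as coefficients. -/
lemma RelK_alg (u : Fin M → K) (hf : Algebra.IsAlgebraic (K0 u) K) (g : K) :
    ∃ (m e : ℕ) (B : ℕ → PR M), (∀ r ∈ range (m + 1), (B r).IsHomogeneous e) ∧
      aeval u (B m) ≠ 0 ∧ ∑ r ∈ range (m + 1), aeval u (B r) * g ^ r = 0 := by
  obtain ⟨p, p0, hp⟩ := hf.isAlgebraic g
  obtain ⟨B, e, l, l0, hB⟩ := RelK_den u (range (p.natDegree + 1)) (fun r => (p.coeff r : K))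
    fun r => RelK_quot u _ (p.coeff r).2
  refine ⟨p.natDegree, e, B, fun r hr => (hB r hr).1, ?_, ?_⟩
  · rw [(hB _ (self_mem_range_succ _)).2]
    refine mul_ne_zero l0 fun a => Polynomial.leadingCoeff_ne_zero.2 p0 (Subtype.ext a)
  · rw [Polynomial.aeval_eq_sum_range] at hp
    rw [← mul_zero l, ← hp, mul_sum]
    exact sum_congr rfl fun r hr => by rw [(hB r hr).2, mul_assoc]; rfl

omit [Algebra ℂ K] in
lemma RelK_fin (m : ℕ) (a : ℕ → K) (h : a m ≠ 0) :
    {T : K | ∑ r ∈ range (m + 1), a r * T ^ r = 0}.Finite := by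
  have p0 : (∑ r ∈ range (m + 1), Polynomial.C (a r) * Polynomial.X ^ r : Polynomial K) ≠ 0 :=
    fun e => h (by
      simpa [Polynomial.finsetSum_coeff, Polynomial.coeff_C_mul_X_pow] using
        congrArg (fun q => Polynomial.coeff q m) e)
  refine (Polynomial.finite_setOfPred_isRoot p0).subset fun T hT => ?_
  simpa [Polynomial.eval_finsetSum] using hT

end Alg

section Deg
variable {L : Type} [Field L] [Algebra ℂ L]

lemma RelK_pow (h : FFd L) (P : Pl L) (x : L) (k : ℕ) : lam P (x ^ k) = k * lam P x := by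
  have o1 : P.ord 1 = 0 := by simpa using h.a.con P 1
  by_cases e : x = 0
  · cases k with
    | zero => simp [lam, o1]
    | succ k => simp [e, lam_zero]
  have : P.ord (x ^ k) = k * P.ord x := by
    induction k with
    | zero => simp [o1]
    | succ k ih => rw [pow_succ, h.a.mul P _ _ (pow_ne_zero _ e) e, ih]; push_cast; ring
  simp only [lam, this]
  rw [← mul_neg]
  rcases le_total 0 (-P.ord x) with a | a
  · rw [Int.toNat_mul (Int.natCast_nonneg k) a, Int.toNat_natCast]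
  · rw [Int.toNat_of_nonpos a, Int.toNat_of_nonpos
      (mul_nonpos_of_nonneg_of_nonpos (Int.natCast_nonneg k) a), mul_zero]

lemma RelK_sum (h : FFd L) (P : Pl L) {γ : Type} (s : Finset γ) (f : γ → L) (N : ℕ)
    (H : ∀ i ∈ s, lam P (f i) ≤ N) : lam P (∑ i ∈ s, f i) ≤ N :=
  sum_induction f (fun x => lam P x ≤ N) (fun a b p q => (h.lam_add P a b).trans (max_le p q))
    (by simp [lam_zero]) H

/-- The degree of a root. -/
lemma RelK_root (h : FFd L) (m : ℕ) (a : ℕ → L) (h0 : a m ≠ 0) (T : L)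
    (hT : ∑ r ∈ range (m + 1), a r * T ^ r = 0) : deg T ≤ ∑ r ∈ range m, deg (a r / a m) := by
  have e : T ^ m = -∑ r ∈ range m, a r / a m * T ^ r := by
    rw [sum_range_succ] at hT
    apply mul_left_cancel₀ h0
    rw [mul_neg, mul_sum, eq_neg_of_add_eq_zero_right hT]
    congr 1
    exact sum_congr rfl fun r _ => by field_simp
  cases m with
  | zero => simp at e
  | succ m =>
  refine h.deg_le _ fun S => (sum_le_sum (g := fun P => ∑ r ∈ range (m + 1),
    lam P (a r / a (m + 1))) fun P _ => ?_).trans ?_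
  · have := RelK_sum h P (range (m + 1)) (fun r => a r / a (m + 1) * T ^ r)
      (∑ r ∈ range (m + 1), lam P (a r / a (m + 1)) + m * lam P T) fun r hr =>
      (h.lam_mul P _ _).trans (add_le_add (single_le_sum (f := fun r => lam P (a r / a (m + 1)))
        (fun _ _ => Nat.zero_le _) hr) (by
          rw [RelK_pow h]; exact Nat.mul_le_mul_right _ (Nat.lt_succ_iff.1 (mem_range.1 hr))))
    rw [← h.lam_neg, ← e, RelK_pow h, add_mul] at this
    omega
  · rw [sum_comm]
    exact sum_le_sum fun r _ => h.sum_le_deg _ S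

end Deg

lemma RelK_poly {ι : Type} (F : MvPolynomial ι ℂ) : ∃ C : ℕ, ∀ (L : Type) [Field L] [Algebra ℂ L],
    FFd L → ∀ (x : ι → L) (N : ℕ), (∀ i, deg (x i) ≤ N) → deg (aeval x F) ≤ C * N := by
  induction F using MvPolynomial.induction_on with
  | C c => exact ⟨0, fun L _ _ h x N _ => by rw [aeval_C, h.deg_const]; exact Nat.zero_le _⟩
  | add p q hp hq =>
    obtain ⟨C, hp⟩ := hp
    obtain ⟨C', hq⟩ := hq
    exact ⟨C + C', fun L _ _ h x N H => by
      rw [map_add, add_mul]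
      exact (h.deg_add _ _).trans (add_le_add (hp L h x N H) (hq L h x N H))⟩
  | mul_X p i hp =>
    obtain ⟨C, hp⟩ := hp
    exact ⟨C + 1, fun L _ _ h x N H => by
      rw [map_mul, aeval_X, add_mul, one_mul]
      exact (h.deg_mul _ _).trans (add_le_add (hp L h x N H) (H i))⟩

lemma RelK_ratio {N e : ℕ} {F G : PR N} (hF : F.IsHomogeneous e) (hG : G.IsHomogeneous e) :
    ∃ C : ℕ, ∀ (L : Type) [Field L] [Algebra ℂ L], FFd L → ∀ y : Fin N → L, y ≠ 0 →
      deg (aeval y F / aeval y G) ≤ C * ht y := by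
  obtain ⟨C, h1⟩ := RelK_poly F
  obtain ⟨C', h2⟩ := RelK_poly G
  refine ⟨C + C', fun L _ _ h y hy => ?_⟩
  obtain ⟨j, hj⟩ := Function.ne_iff.1 hy
  have H : ∀ i, deg ((y j)⁻¹ * y i) ≤ ht y := fun i => by
    rw [← div_eq_inv_mul]; exact deg_le_ht y i j
  rw [← mul_div_mul_left _ _ (pow_ne_zero e (inv_ne_zero hj)), ← aeval_scale hF, ← aeval_scale hG,
    add_mul]
  exact (h.deg_div _ _).trans (add_le_add (h1 L h _ _ H) (h2 L h _ _ H))

section Main
variable {K : Type} [Field K] [Algebra ℂ K] {n M : ℕ} {U : Set (PS n)} {z : Fin n → K}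
  {u : Fin M → K}

lemma RelK_par (hz : GenPt U z) (u : Fin M → K) : ∃ (A : Fin M → PR n) (e : ℕ) (l : K), l ≠ 0 ∧
    (∀ c, (A c).IsHomogeneous e ∧ aeval z (A c) = l * u c) ∧
    ∀ (Ω : Type) [Field Ω] [Algebra ℂ Ω] (z' : Fin n → Ω) (u' : Fin M → Ω), Rel z u z' u' →
      u' ≠ 0 → ∃ l' : Ω, ∀ c, aeval z' (A c) = l' * u' c := by
  obtain ⟨A, e, l, l0, h⟩ := RelK_den z univ u fun c => quot hz (u c)
  replace h := fun c => h c (mem_univ c)
  refine ⟨A, e, l, l0, h, fun Ω _ _ z' u' hr h0 => ?_⟩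
  obtain ⟨b, hb⟩ := Function.ne_iff.1 h0
  refine ⟨aeval z' (A b) / u' b, fun c => ?_⟩
  rw [div_mul_eq_mul_div, eq_div_iff hb]
  exact RelK_two hr (h c).1 (h b).1 b c (by rw [(h c).2, (h b).2]; ring)

lemma RelK_form (hz : GenPt U z) (F : PR M) (d : ℕ) (hF : F.IsHomogeneous d)
    (h0 : aeval u F ≠ 0) : ∃ (R : PR n) (e : ℕ),
    R.IsHomogeneous e ∧ aeval z R ≠ 0 ∧ ∀ (Ω : Type) [Field Ω] [Algebra ℂ Ω] (z' : Fin n → Ω)
      (u' : Fin M → Ω), Rel z u z' u' → u' ≠ 0 → aeval z' R ≠ 0 → aeval u' F ≠ 0 := by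
  obtain ⟨A, e, l, l0, h, H⟩ := RelK_par hz u
  refine ⟨aeval A F, _, hF.aeval A fun c => (h c).1, ?_, fun Ω _ _ z' u' hr hu hR e0 => hR ?_⟩
  · rw [comp_aeval_apply, funext fun c => (h c).2, aeval_scale hF]
    exact mul_ne_zero (pow_ne_zero _ l0) h0
  · obtain ⟨l', hl⟩ := H Ω z' u' hr hu
    rw [comp_aeval_apply, funext hl, aeval_scale hF, e0, mul_zero]

end Main

theorem sRelK : SRelK := by
  intro t a M n w Θ K _ _ U z u h
  have hz := h.gen
  refine ⟨RelK_form hz, fun x hx y y' h1 h2 h0 => ?_, ?_⟩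
  · obtain ⟨b, -, hb, H⟩ := h.hr x hx none
    have hs : ∀ (G : PR n) (d : ℕ), G.IsHomogeneous d → aeval z G = 0 → eval x.rep G = 0 :=
      fun G d hG e => (hz.1 G d hG).1 e x hx
    choose F G d hF hG g0 e using fun c => (mem_locRing hs _).1 (H c)
    have key : ∀ y : Fin M → ℂ, Rel z u x.rep y → ∀ c,
        y c = eval x.rep (F c) / eval x.rep (G c) * y b := fun y hy c => by
      rw [div_mul_eq_mul_div, eq_div_iff (g0 c), mul_comm]
      exact RelK_two hy (hG c) (hF c) c b (by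
        have := e c
        rw [div_eq_div_iff hb fun a => g0 c (hs _ _ (hG c) a)] at this
        rw [← this, mul_comm])
    have b0 : y' b ≠ 0 := fun e => h0 (funext fun c => by rw [key y' h2 c, e, mul_zero]; rfl)
    refine ⟨y b / y' b, funext fun c => ?_⟩
    rw [Pi.smul_apply, key y h1 c, key y' h2 c, smul_eq_mul]
    field_simp
  obtain ⟨P, hP⟩ := h.var.1.1
  obtain ⟨j, hj⟩ := Function.ne_iff.1 P.rep_nonzero
  have j0 : z j ≠ 0 := fun e =>
    hj (by simpa using (hz.1 (X j) 1 (isHomogeneous_X _ _)).1 (by simpa) P hP)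
  obtain ⟨b₀, -, hb, -⟩ := h.hr P hP none
  obtain ⟨A, e, l, l0, hA, HA⟩ := RelK_par hz u
  choose m e' B hB B0 hBz using fun i => RelK_alg u h.hf (z i / z j)
  choose R e'' hR R0 HR using fun i =>
    RelK_form hz (B i (m i)) (e' i) (hB i _ (self_mem_range_succ _)) (B0 i)
  have : ∀ i r, ∃ C : ℕ, r ∈ range (m i) → ∀ (L : Type) [Field L] [Algebra ℂ L], FFd L →
      ∀ y : Fin M → L, y ≠ 0 → deg (aeval y (B i r) / aeval y (B i (m i))) ≤ C * ht y :=
    fun i r => by
      by_cases hr : r ∈ range (m i)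
      · obtain ⟨C, hC⟩ := RelK_ratio (hB i r (mem_range.2 (Nat.lt_succ_of_lt (mem_range.1 hr))))
          (hB i _ (self_mem_range_succ _))
        exact ⟨C, fun _ => hC⟩
      · exact ⟨0, fun a => absurd a hr⟩
  choose C₁ h₁ using this
  choose C₂ h₂ using fun c b => RelK_ratio (hA c).1 (hA b).1
  refine ⟨X j * A b₀ * ∏ i, R i, _, ∑ c, ∑ b, (∑ r ∈ range (m c), C₁ c r +
    ∑ r ∈ range (m b), C₁ b r) + ∑ c, ∑ b, C₂ c b,
    ((isHomogeneous_X ℂ j).mul (hA b₀).1).mul (IsHomogeneous.prod _ _ _ fun i _ => hR i), ?_,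
    fun L _ _ hL y y0 => ?_⟩
  · rw [map_mul, map_mul, map_prod, aeval_X, (hA b₀).2]
    exact mul_ne_zero (mul_ne_zero j0 (mul_ne_zero l0 hb)) (prod_ne_zero_iff.2 fun i _ => R0 i)
  have key : ∀ z' : Fin n → L, Rel z u z' y → aeval z' (X j * A b₀ * ∏ i, R i) ≠ 0 →
      z' j ≠ 0 ∧ aeval z' (A b₀) ≠ 0 ∧ ∀ i, aeval y (B i (m i)) ≠ 0 ∧
        ∑ r ∈ range (m i + 1), aeval y (B i r) * (z' i / z' j) ^ r = 0 := fun z' hr h0 => by
    rw [map_mul, map_mul, map_prod, aeval_X, mul_ne_zero_iff, mul_ne_zero_iff,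
      prod_ne_zero_iff] at h0
    refine ⟨h0.1.1, h0.1.2, fun i => ⟨HR i L z' y hr y0 (h0.2 i (mem_univ i)), ?_⟩⟩
    have aux : ∀ (Ω : Type) [Field Ω] [Algebra ℂ Ω] (x : Fin n → Ω) (v : Fin M → Ω), x j ≠ 0 →
        ∑ r ∈ range (m i + 1), aeval x (X i ^ r * X j ^ (m i - r) : PR n) * aeval v (B i r) =
        x j ^ m i * ∑ r ∈ range (m i + 1), aeval v (B i r) * (x i / x j) ^ r :=
      fun Ω _ _ x v hx => by
        rw [mul_sum]
        refine sum_congr rfl fun r hr => ?_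
        obtain ⟨k, hk⟩ := Nat.exists_eq_add_of_le (Nat.lt_succ_iff.1 (mem_range.1 hr))
        rw [hk, Nat.add_sub_cancel_left]
        simp only [map_mul, map_pow, aeval_X, div_pow, pow_add]
        field_simp
    have := RelK_rel hr (range (m i + 1)) (fun r => X i ^ r * X j ^ (m i - r)) (B i) (d := m i)
      (fun r hr => by
        have := (isHomogeneous_X_pow (R := ℂ) i r).mul (isHomogeneous_X_pow j (m i - r))
        rwa [Nat.add_sub_cancel' (Nat.lt_succ_iff.1 (mem_range.1 hr))] at this)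
      (hB i) (by rw [aux K z u j0, hBz, mul_zero])
    rw [aux L z' y h0.1.1] at this
    exact (mul_eq_zero.1 this).resolve_left (pow_ne_zero _ h0.1.1)
  refine ⟨fun z' hr h0 => ?_, fun z' H => ?_⟩
  · obtain ⟨k1, k2, k3⟩ := key z' hr h0
    have z0 : z' ≠ 0 := fun e => k1 (congrFun e j)
    have d1 : ∀ i, deg (z' i / z' j) ≤ (∑ r ∈ range (m i), C₁ i r) * ht y := fun i => by
      rw [sum_mul]
      exact (RelK_root hL _ _ (k3 i).1 _ (k3 i).2).trans
        (sum_le_sum fun r hr => h₁ i r hr L hL y y0)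
    obtain ⟨l', hl⟩ := HA L z' y hr y0
    have l1 : l' ≠ 0 := fun e => k2 (by rw [hl, e, zero_mul])
    constructor
    · refine le_trans ?_ (Nat.mul_le_mul_right _ (Nat.le_add_right _ _))
      simp only [sum_mul (s := (univ : Finset (Fin n))), add_mul]
      refine sum_le_sum fun c _ => sum_le_sum fun b _ => ?_
      rw [← div_div_div_cancel_right₀ k1]
      exact (hL.deg_div _ _).trans (add_le_add (d1 c) (d1 b))
    · refine le_trans ?_ (Nat.mul_le_mul_right _ (Nat.le_add_left _ _))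
      simp only [sum_mul]
      refine sum_le_sum fun c _ => sum_le_sum fun b _ => ?_
      have := h₂ c b L hL z' z0
      rwa [hl, hl, mul_div_mul_left _ _ l1] at this
  · have k := fun q => key (z' q) (H q).1 (H q).2
    obtain ⟨q, -, q', -, ne, e⟩ := Set.infinite_univ.exists_ne_map_eq_of_mapsTo
      (f := fun q i => z' q i / z' q j) (t := {f : Fin n → L | ∀ i, f i ∈ {T : L |
        ∑ r ∈ range (m i + 1), aeval y (B i r) * T ^ r = 0}}) (fun q _ i => ((k q).2.2 i).2)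
      (Set.Finite.pi' fun i => RelK_fin (m i) (fun r => aeval y (B i r)) ((k 0).2.2 i).1)
    refine ⟨q, q', ne, z' q j / z' q' j, funext fun i => ?_⟩
    have := congrFun e i
    have a1 := (k q).1
    have a2 := (k q').1
    rw [Pi.smul_apply, smul_eq_mul]
    field_simp at this ⊢
    linear_combination this

end Pool.Agent.MP_c69980_ag.H43
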