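import Pool.Agent.MP_c69980_ag.H43.Spec10

/-!
An algebraic curve in an algebraic leaf.
-/

set_option autoImplicit false

namespace Pool.Agent.MP_c69980_ag.H43

open MvPolynomial H60 Finset Pool.Agent.MP_f3836a_nt.PK

lemma curve_om : ∃ (Ω : Type) (_ : Field Ω) (_ : Algebra ℂ Ω) (_ : IsAlgClosed Ω) (T : Ω),
    Transcendental ℂ T ∧ Algebra.trdeg ℂ Ω = 1 := by
  have : FaithfulSMul (Polynomial ℂ) (AlgebraicClosure (FractionRing (Polynomial ℂ))) :=
    (faithfulSMul_iff_algebraMap_injective _ _).2 (by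
      rw [IsScalarTower.algebraMap_eq _ (FractionRing (Polynomial ℂ)), RingHom.coe_comp]
      exact (RingHom.injective _).comp (IsFractionRing.injective _ _))
  refine ⟨AlgebraicClosure (FractionRing (Polynomial ℂ)), inferInstance, inferInstance,
    inferInstance, algebraMap (Polynomial ℂ) _ Polynomial.X, ?_, ?_⟩
  · exact (transcendental_algebraMap_iff (FaithfulSMul.algebraMap_injective _ _)).2
      (Polynomial.transcendental_X ℂ)
  · have : Algebra.IsAlgebraic (Polynomial ℂ) (FractionRing (Polynomial ℂ)) :=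
      IsLocalization.isAlgebraic _ (nonZeroDivisors (Polynomial ℂ))
    have : Algebra.IsAlgebraic (Polynomial ℂ) (AlgebraicClosure (FractionRing (Polynomial ℂ))) :=
      Algebra.IsAlgebraic.trans _ (FractionRing (Polynomial ℂ)) _
    rw [← trdeg_add_eq ℂ (Polynomial ℂ), Polynomial.trdeg_of_isDomain, trdeg_eq_zero, add_zero]

lemma curve_ff {L : Type} [Field L] [Algebra ℂ L] (h : Algebra.trdeg ℂ L ≤ 1) {t : L}
    (ht : Transcendental ℂ t) {T : Set L} (hT : T.Finite)
    (hg : IntermediateField.adjoin ℂ T = ⊤) : IsFF ℂ L := by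
  have h1 : AlgebraicIndependent ℂ (fun _ : Unit => t) :=
    algebraicIndependent_unique_type_iff.2 ht
  have h2 := (h1.isTranscendenceBasis_of_trdeg_le (h.trans_lt Cardinal.one_lt_aleph0)
    (by simpa using h)).isAlgebraic_field
  rw [Set.range_const] at h2
  refine ⟨t, ht, ?_⟩
  have : Finite T := hT
  have h3 := IntermediateField.finiteDimensional_adjoin (K := IntermediateField.adjoin ℂ {t})
    (S := T) fun z _ => (h2.1 z).isIntegral
  rw [IntermediateField.adjoin_eq_top_of_adjoin_eq_top ℂ hg] at h3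
  exact IntermediateField.topEquiv.toLinearEquiv.finiteDimensional

lemma curve_algS {K S : Subfield ℂ} (h : K ≤ S) {x : S} (hx : IsAlgebraic K (x : ℂ)) :
    letI := (Subfield.inclusion h).toAlgebra
    IsAlgebraic K x := by
  let _ := (Subfield.inclusion h).toAlgebra
  have : IsScalarTower K S ℂ := .of_algebraMap_eq fun _ => rfl
  exact (isAlgebraic_algebraMap_iff (R := K) (S := S) (A := ℂ) Subtype.val_injective).1 hx

lemma curve_phi {Ω : Type} [Field Ω] [Algebra ℂ Ω] [IsAlgClosed Ω] {T : Ω}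
    (hT : Transcendental ℂ T) {F S : Subfield ℂ} {m : ℕ} {b : Fin (m + 1) → ℂ}
    (hb : AlgebraicIndependent F b) (hS : Subfield.closure (F ∪ Set.range b : Set ℂ) ≤ S)
    (ha : ∀ x ∈ S, IsAlgebraic (Subfield.closure (F ∪ Set.range b : Set ℂ)) x) :
    ∃ φ : S →+* Ω, (∀ c : S, (c : ℂ) ∈ F → φ c = algebraMap ℂ Ω c) ∧
      ∀ c : S, (c : ℂ) = b 0 → φ c = T := by
  have h1 : AlgebraicIndependent ℂ (fun _ : Unit => T) :=
    algebraicIndependent_unique_type_iff.2 hT
  have h2 := ((hb.comp Fin.succ (Fin.succ_injective m)).sumElim_comp h1).comp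
    (Fin.cases (Sum.inl ()) Sum.inr : Fin (m + 1) → Unit ⊕ Fin m) (by
      intro i j
      refine Fin.cases ?_ (fun i => ?_) i <;> refine Fin.cases ?_ (fun j => ?_) j <;> simp)
  let φ₁ := (IsFractionRing.liftAlgHom (K := FractionRing (MvPolynomial (Fin (m + 1)) F))
    (algebraicIndependent_iff_injective_aeval.2 h2)).comp hb.reprField
  have e : Subfield.closure (F ∪ Set.range b : Set ℂ) =
      (IntermediateField.adjoin F (Set.range b)).toSubfield := by
    rw [IntermediateField.adjoin_toSubfield]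
    congr 2
    exact Subtype.range_coe.symm
  let φ₀ : Subfield.closure (F ∪ Set.range b : Set ℂ) →+* Ω :=
    φ₁.toRingHom.comp (Subfield.inclusion e.le)
  let _ := (Subfield.inclusion hS).toAlgebra
  let _ := φ₀.toAlgebra
  have : Algebra.IsAlgebraic (Subfield.closure (F ∪ Set.range b : Set ℂ)) S :=
    ⟨fun x => curve_algS hS (ha x x.2)⟩
  let φ : S →ₐ[Subfield.closure (F ∪ Set.range b : Set ℂ)] Ω := IsAlgClosed.lift
  refine ⟨φ, fun c hc => ?_, fun c hc => ?_⟩
  · exact (φ.commutes ⟨c, Subfield.subset_closure (Or.inl hc)⟩).trans (φ₁.commutes ⟨c, hc⟩)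
  · refine (φ.commutes ⟨c, Subfield.subset_closure (Or.inr ⟨0, hc.symm⟩)⟩).trans ?_
    have : (Subfield.inclusion e.le ⟨c, Subfield.subset_closure (Or.inr ⟨0, hc.symm⟩)⟩ :
        IntermediateField.adjoin F (Set.range b)) =
        hb.aevalEquivField (algebraMap (MvPolynomial (Fin (m + 1)) F) _ (X 0)) :=
      Subtype.ext (by rw [hb.aevalEquivField_algebraMap_apply_coe, aeval_X]; exact hc)
    refine (congrArg φ₁ this).trans ?_
    simp [φ₁, AlgebraicIndependent.reprField]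

lemma curve_alg {K S L : Type} [Field K] [CharZero K] [Field S] [Field L] [Algebra K S]
    (ψ : S →+* L) (E : S →+ L) (hE : ∀ x y, E (x * y) = ψ x * E y + ψ y * E x)
    (h0 : ∀ c, E (algebraMap K S c) = 0) {x : S} (hx : IsAlgebraic K x) : E x = 0 := by
  have key : ∀ p : Polynomial K, E (Polynomial.aeval x p) =
      ψ (Polynomial.aeval x (Polynomial.derivative p)) * E x := by
    intro p
    induction p using Polynomial.induction_on with
    | C a => simp [h0]
    | add p q hp hq => simp only [map_add, hp, hq, add_mul]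
    | monomial n a ih =>
      rw [pow_succ, ← mul_assoc, Polynomial.derivative_mul, Polynomial.derivative_X, map_mul,
        Polynomial.aeval_X, hE, ih]
      simp only [map_add, map_mul, Polynomial.aeval_X, mul_one]
      ring
  have h1 := key (minpoly K x)
  rw [minpoly.aeval, map_zero] at h1
  have h2 := (minpoly.irreducible hx.isIntegral).separable.aeval_derivative_ne_zero
    (minpoly.aeval K x)
  exact (mul_eq_zero.1 h1.symm).resolve_left ((map_ne_zero ψ).2 h2)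

lemma curve_zero {L : Type} [Field L] {S : Subfield ℂ} (ψ : S →+* L) (E : S →+ L)
    (hE : ∀ x y, E (x * y) = ψ x * E y + ψ y * E x) {s : Set ℂ} (hS : Subfield.closure s ≤ S)
    (h0 : ∀ c : S, (c : ℂ) ∈ s → E c = 0) (x : S) (hx : IsAlgebraic (Subfield.closure s) (x : ℂ)) :
    E x = 0 := by
  let _ := (Subfield.inclusion hS).toAlgebra
  refine curve_alg (K := Subfield.closure s) ψ E hE (fun ⟨c, hc⟩ => ?_) (curve_algS hS hx)
  change E ⟨c, hS hc⟩ = 0
  have one : E 1 = 0 := by simpa using hE 1 1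
  induction hc using Subfield.closure_induction with
  | mem x hx => exact h0 _ hx
  | one => exact one
  | add x y hx hy a b => exact (E.map_add ⟨x, hS hx⟩ ⟨y, hS hy⟩).trans (by rw [a, b, add_zero])
  | neg x hx a => exact (E.map_neg ⟨x, hS hx⟩).trans (by rw [a, neg_zero])
  | inv x hx a =>
    change E (⟨x, hS hx⟩ : S)⁻¹ = 0
    by_cases e : (⟨x, hS hx⟩ : S) = 0
    · rw [e, inv_zero, map_zero]
    · have := hE ⟨x, hS hx⟩ (⟨x, hS hx⟩ : S)⁻¹
      rw [mul_inv_cancel₀ e, one, a, mul_zero, add_zero] at this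
      exact (mul_eq_zero.1 this.symm).resolve_left ((map_ne_zero ψ).2 e)
  | mul x y hx hy a b =>
    exact (hE ⟨x, hS hx⟩ ⟨y, hS hy⟩).trans (by rw [a, b, mul_zero, mul_zero, add_zero])

lemma curve_eval {L ι : Type} [Field L] [Algebra ℂ L] {F S : Subfield ℂ} (h : F ≤ S) (ψ : S →+* L)
    (hψ : ∀ c : S, (c : ℂ) ∈ F → ψ c = algebraMap ℂ L c) {P : MvPolynomial ι ℂ} (hP : Cf F P)
    (x : ι → S) (u : S) (hu : (u : ℂ) = eval (fun i => (x i : ℂ)) P) :
    ψ u = aeval (fun i => ψ (x i)) P := by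
  obtain ⟨P', rfl⟩ := cf_iff.1 hP
  have e : u = eval₂ (Subfield.inclusion h) x P' := Subtype.ext (by
    rw [hu, eval_map]
    exact (eval₂_comp_left S.subtype (Subfield.inclusion h) x P').symm)
  rw [e, eval₂_comp_left, aeval_def, eval₂_map]
  congr 1
  ext c
  exact hψ _ c.2

lemma curve_gam {L : Type} [Field L] {S : Subfield ℂ} (ψ : S →+* L) {n : ℕ}
    (A : Matrix (Fin n) (Fin n) S) (h : ∀ c : Fin n → ℂ, (∀ i, ∑ l, c l * A l i = 0) → c = 0)
    (v : Fin n → L) : ∃ γ : Fin n → L, ∀ i, ∑ l, γ l * ψ (A l i) = v i := by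
  have h1 : (S.subtype.mapMatrix A).det ≠ 0 := fun e => by
    obtain ⟨c, c0, hc⟩ := Matrix.exists_vecMul_eq_zero_iff.2 e
    exact c0 (h c fun i => congrFun hc i)
  rw [← RingHom.map_det] at h1
  have h2 : IsUnit (ψ.mapMatrix A).det := by
    rw [← RingHom.map_det]
    exact ((map_ne_zero ψ).2 ((map_ne_zero _).1 h1)).isUnit
  refine ⟨Matrix.vecMul v (ψ.mapMatrix A)⁻¹, fun i => ?_⟩
  have := Matrix.vecMul_vecMul v (ψ.mapMatrix A)⁻¹ (ψ.mapMatrix A)
  rw [Matrix.nonsing_inv_mul _ h2, Matrix.vecMul_one] at this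
  exact congrFun this i

theorem sCurve (h1 : SDimt) (h2 : SPres) (h3 : SStab) (h4 : SInd) : SCurve := by
  intro t a M w Θ PP k F p₀ m lam δ gd gk hk ax
  obtain ⟨n, b, n1, n2, b1, b2, b3⟩ := h4.max F (m + 1) _ ax.dim
  obtain rfl : n = m + 1 := le_antisymm n1 (by
    by_contra hn
    exact n2 ((h1 _ _ _ w Θ PP k F p₀ _ lam δ gd ax.ind fun l => ⟨ax.kill l, ax.tan l⟩).mono
      le_rfl (by omega) subset_rfl))
  set S := FL F (Θ p₀) with hSd
  have hF : F ≤ S := le_FL _ _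
  have hr : rat (Θ p₀) ⊆ S := rat_FL _ _
  have hS : Subfield.closure (F ∪ Set.range b : Set ℂ) ≤ S :=
    Subfield.closure_le.2 (Set.union_subset hF (Set.range_subset_iff.2 fun i => hr (b1 i)))
  have ha : ∀ x ∈ S, IsAlgebraic (Subfield.closure (F ∪ Set.range b : Set ℂ)) x := fun x hx =>
    mem_algebraicClosure_iff.1 (FL_le (F' := (algebraicClosure
      (Subfield.closure (F ∪ Set.range b : Set ℂ)) ℂ).toSubfield)
      (fun c hc => IntermediateField.algebraMap_mem _ (⟨c, Subfield.subset_closure (Or.inl hc)⟩ :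
        Subfield.closure (F ∪ Set.range b : Set ℂ)))
      (fun c hc => mem_algebraicClosure_iff.2 (b3 c hc)) hx)
  have hp : ∀ l, Pres (δ l) S := fun l =>
    (h2 _ _ _ w Θ PP k F (δ l) p₀ (lam l) gd hk (ax.tan l)).1 (fun i => hF (hk (ax.mem l i)))
      fun x hx => by rw [ax.kill l x hx]; exact zero_mem _
  obtain ⟨Ω, _, _, _, T, hT, hΩ⟩ := curve_om
  obtain ⟨φ, φ1, φ2⟩ := curve_phi hT b2 hS ha
  let g : Fin M × Fin M → Ω := fun x => φ ⟨Θ p₀ x.1 / Θ p₀ x.2, hr ⟨_, _, rfl⟩⟩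
  let L := IntermediateField.adjoin ℂ (Set.range g)
  have hL : ∀ x : S, φ x ∈ L := fun ⟨x, hx⟩ => by
    induction hx using Subfield.closure_induction with
    | mem x hx =>
      rcases hx with hx | ⟨c, b, rfl⟩
      · rw [φ1 _ hx]
        exact L.algebraMap_mem _
      · exact IntermediateField.subset_adjoin _ _ ⟨(c, b), rfl⟩
    | one => exact (map_one φ).symm ▸ one_mem L
    | add x y hx hy a b => exact (φ.map_add ⟨x, hx⟩ ⟨y, hy⟩).symm ▸ add_mem a b
    | neg x hx a => exact (φ.map_neg ⟨x, hx⟩).symm ▸ neg_mem a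
    | inv x hx a => exact (map_inv₀ φ ⟨x, hx⟩).symm ▸ inv_mem a
    | mul x y hx hy a b => exact (φ.map_mul ⟨x, hx⟩ ⟨y, hy⟩).symm ▸ mul_mem a b
  let ψ : S →+* L := φ.codRestrict L hL
  have ψ1 : ∀ c : S, (c : ℂ) ∈ F → ψ c = algebraMap ℂ L c := fun c hc => Subtype.ext (φ1 c hc)
  have hT' : Transcendental ℂ (ψ ⟨b 0, hr (b1 0)⟩) := by
    rw [← transcendental_algebraMap_iff (S := L) (A := Ω) Subtype.val_injective]
    exact (φ2 ⟨b 0, hr (b1 0)⟩ rfl).symm ▸ hT
  obtain ⟨β₀, hβ₀⟩ := gd.ch p₀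
  let x₀ : Fin M → S := fun c => ⟨Θ p₀ c / Θ p₀ (β₀ none), hr ⟨_, _, rfl⟩⟩
  have hy : ∀ c b, ψ (x₀ c) / ψ (x₀ b) = ψ ⟨Θ p₀ c / Θ p₀ b, hr ⟨_, _, rfl⟩⟩ := fun c b => by
    rw [← map_div₀]
    exact congrArg ψ (Subtype.ext (div_div_div_cancel_right₀ (hβ₀ none).2 _ _))
  have hy0 : ∀ c, ψ (x₀ c) ≠ 0 ↔ Θ p₀ c ≠ 0 := fun c => by
    rw [map_ne_zero, Ne, Subtype.ext_iff]
    simp [x₀, (hβ₀ none).2]
  refine ⟨L, inferInstance, inferInstance, fun c => ψ (x₀ c), ffd_of (curve_ff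
    ((trdeg_le_of_injective L.val Subtype.val_injective).trans hΩ.le) hT'
    (T := Subtype.val ⁻¹' Set.range g) ((Set.finite_range g).preimage Subtype.val_injective.injOn)
    ?_), ⟨fun o => ?_, gk.eqs _ _ fun P d p1 p2 p3 => ?_⟩, ?_, fun D => ?_⟩
  · apply IntermediateField.lift_injective
    rw [IntermediateField.lift_adjoin, IntermediateField.lift_top, Set.image_preimage_eq_of_subset]
    rw [Subtype.range_coe]
    exact IntermediateField.subset_adjoin _ _
  · obtain ⟨c, c1, c2⟩ := gd.blk p₀ o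
    exact ⟨c, c1, (hy0 c).2 c2⟩
  · rw [← curve_eval hF ψ ψ1 (p2.mono hk) x₀ 0, map_zero]
    have := aeval_scale p1 (Θ p₀ (β₀ none))⁻¹ (Θ p₀)
    simp only [aeval_eq_eval, p3, mul_zero, ← div_eq_inv_mul] at this
    exact this.symm
  · obtain ⟨c, c', e⟩ := b1 0
    refine ⟨c, c', ?_⟩
    rw [hy]
    exact (show (⟨b 0, hr (b1 0)⟩ : S) = ⟨_, hr ⟨c, c', rfl⟩⟩ from Subtype.ext e) ▸ hT'
  obtain ⟨γ, hγ⟩ := curve_gam ψ (fun l i => ⟨δ l (b i), hp l _ (hr (b1 i))⟩) (fun c hc => by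
    have t1 := Tan.sum univ fun l _ => (ax.tan l).smul (c l)
    have t2 : Tan Θ (∑ l, c l • δ l) p₀ 0 := tan_zero_iff.2 fun x hx =>
      (h3 _).2.1 _ (by
        rintro y (hy | ⟨i, rfl⟩)
        · simp [der_sum_apply, ax.kill _ y hy]
        · rw [der_sum_apply]
          exact hc i) x (b3 x hx)
    exact funext (Fintype.linearIndependent_iff.1 ax.ind c (gd.tan_inj t1 t2)))
    fun i => D (ψ ⟨b i, hr (b1 i)⟩)
  let d : Fin (m + 1) → S → S := fun l x => ⟨δ l x, hp l _ x.2⟩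
  have d1 : ∀ l x y, d l (x + y) = d l x + d l y := fun l x y => Subtype.ext (map_add (δ l) _ _)
  have d2 : ∀ l x y, d l (x * y) = x * d l y + y * d l x := fun l x y =>
    Subtype.ext ((δ l).leibniz _ _)
  let E : S →+ L := AddMonoidHom.mk' (fun x => D (ψ x) - ∑ l, γ l * ψ (d l x)) fun x y => by
    simp only [d1, map_add, mul_add, sum_add_distrib]
    ring
  have hE : ∀ x : S, D (ψ x) = ∑ l, γ l * ψ (d l x) := fun x => sub_eq_zero.1
    (curve_zero ψ E (fun x y => by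
      simp only [E, AddMonoidHom.mk'_apply, d2, map_add, map_mul, Derivation.leibniz, smul_eq_mul,
        mul_sub, mul_sum]
      rw [sub_add_sub_comm, ← sum_add_distrib]
      exact congrArg _ (sum_congr rfl fun l _ => by ring)) hS (by
      rintro c (hc | ⟨i, hi⟩)
      · have : ∀ l, d l c = 0 := fun l => Subtype.ext (ax.kill l c hc)
        simp [E, this, ψ1 c hc]
      · obtain rfl : (⟨b i, hr (b1 i)⟩ : S) = c := Subtype.ext hi
        exact sub_eq_zero.2 (hγ i).symm) x (ha x x.2))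
  refine ⟨γ, fun β hβ x => ?_⟩
  have hβ' : Ch w β (Θ p₀) := fun o => ⟨(hβ o).1, (hy0 _).1 (hβ o).2⟩
  let x₁ : CI M t → S := fun x => ⟨co β (Θ p₀) x, hr (co_mem _ _ _)⟩
  have e : co β (fun c => ψ (x₀ c)) = fun x => ψ (x₁ x) := funext fun x => hy _ _
  have hm : ∀ i, eval (co β (Θ p₀)) (PP β i x) ∈ S := fun i =>
    (gd.cf β i x).eval_mem_field (hk.trans hF) fun x => (x₁ x).2
  have e2 : ∀ l, d l (x₁ x) = ∑ i, (⟨lam l i, hF (hk (ax.mem l i))⟩ : S) * ⟨_, hm i⟩ := fun l =>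
    Subtype.ext (by
      rw [AddSubmonoidClass.coe_finsetSum]
      exact (gd.tan_iff hβ').1 (ax.tan l) x)
  rw [e, hE, vf]
  simp only [e2, map_sum, map_mul, mul_sum, sum_mul]
  rw [sum_comm]
  refine sum_congr rfl fun i _ => sum_congr rfl fun l _ => ?_
  rw [ψ1 _ (hk (ax.mem l i)), curve_eval hF ψ ψ1 ((gd.cf β i x).mono hk) x₁ _ rfl, mul_assoc]

end Pool.Agent.MP_c69980_ag.H43
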